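import Mathlib
import Pool.Agent.Helper967.LG11

set_option autoImplicit false

/-! The universal theory of the free lattice-ordered group of every finite rank at least two is
undecidable. -/

namespace Pool.Agent.Results.MP_3a2c1d_lc.AllRanks

/-- For every `n ≥ 2` and every free lattice-ordered group `G` on `n` generators, the set of
universal clauses (finitely many equations imply one of finitely many equations, between terms in
join-of-meets normal form) that hold in `G` is not computable. -/
theorem result (n : ℕ) (hn : 2 ≤ n)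
    (G : Type) [Group G] [Lattice G] [MulLeftMono G] [MulRightMono G] (ι : Fin n → G)
    (hfree : ∀ (H : Type) [Group H] [Lattice H] [MulLeftMono H] [MulRightMono H] (f : Fin n → H),
      ∃ φ : G →* H, (∀ a b : G, φ (a ⊔ b) = φ a ⊔ φ b) ∧ (∀ a b : G, φ (a ⊓ b) = φ a ⊓ φ b) ∧
        (∀ i, φ (ι i) = f i) ∧
        ∀ ψ : G →* H, (∀ a b : G, ψ (a ⊔ b) = ψ a ⊔ ψ b) → (∀ a b : G, ψ (a ⊓ b) = ψ a ⊓ ψ b) →
          (∀ i, ψ (ι i) = f i) → ψ = φ) :
    ¬ ComputablePred
      (fun c : List ((List (ℕ × Bool) × List (List (ℕ × Bool))) × List (List (ℕ × Bool) × List (List (ℕ × Bool))))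
             × List ((List (ℕ × Bool) × List (List (ℕ × Bool))) × List (List (ℕ × Bool) × List (List (ℕ × Bool)))) =>
        ∀ x : ℕ → G,
          (∀ t ∈ c.1,
            t.2.foldr
              (fun q b => q.2.foldr (fun w a => FreeGroup.lift x (FreeGroup.mk w) ⊓ a)
                  (FreeGroup.lift x (FreeGroup.mk q.1)) ⊔ b)
              (t.1.2.foldr (fun w a => FreeGroup.lift x (FreeGroup.mk w) ⊓ a)
                  (FreeGroup.lift x (FreeGroup.mk t.1.1))) = 1) →
          ∃ u ∈ c.2,
            u.2.foldr
              (fun q b => q.2.foldr (fun w a => FreeGroup.lift x (FreeGroup.mk w) ⊓ a)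
                  (FreeGroup.lift x (FreeGroup.mk q.1)) ⊔ b)
              (u.1.2.foldr (fun w a => FreeGroup.lift x (FreeGroup.mk w) ⊓ a)
                  (FreeGroup.lift x (FreeGroup.mk u.1.1))) = 1) :=
  Pool.Agent.Helper967.LG.not_computable_free n hn G ι hfree

end Pool.Agent.Results.MP_3a2c1d_lc.AllRanks
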